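import Pool.Agent.T9h51.PE.BTx
import Pool.Agent.T9h51.PE.NoDiv
import Pool.Agent.T9h51.ME.Gen2
import Pool.Agent.T9h52.BT.Ex4

/-!
# The Brun–Titchmarsh inequality at all heights, for all the moduli near almost all members of thin families

The families are arbitrary finite families of integers up to `B N` whose additive energy of some order `h` is at most
`log ^ C N` times the least possible one. They may have as few as `N ^ (1 / h)` members. Examples are all sets with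
different sums of `h` elements (`h = 2`: Sidon sets) with at least `N ^ (1 / h) / log ^ C N` elements, and the values of
polynomials of degree `d ≥ 2` at the integers whose digits lie in arbitrary sets of at least two digits.

For all the moduli `q` near almost all members we show:
* the inequality of the problem for ALL reduced classes and ALL `x`, `y` with `y / q ≥ x ^ ε`, with a `δ` which depends
  only on `ε`;
* the best possible constant `1 + ε'` for almost all reduced classes, simultaneously for all `x ≤ q N ^ K` and all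
  `y ≥ q log ^ B' N` with `y ≥ x / log ^ D N`.

Method. (i) The products `m v i`, `m ≤ M`, of a family of nearly minimal energy at the scale `N` form a family of nearly
minimal energy at the scale `N M`, for all `M ≤ N ^ K` (`Pool.Agent.T9h51.PE.prod_energy`), so that the correlations of the
primes with the shifts `m q` are under control for almost all `m`, at all dyadic scales (`Pool.Agent.T9h51.PE.multiples_core`,
`corr_en`); this gives a small variance of the primes in the reduced classes modulo `q` at all the heights up to `q N ^ K`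
(`Pool.Agent.T9h51.PE.det_big`, `var_all`), a theorem of the type of Barban, Davenport and Halberstam for the single moduli
`q`. (ii) For all the classes: near-extremal progressions force an exceptional real character modulo a divisor of `q` larger
than any power of `log x` (`Pool.Agent.T9h52.BT.Ex.one_modulus`, from the hand-in OneExceptionalModulus), and by the minimal
energy these divisors, at all the dyadic heights together, divide few of the `v i + s`
(`Pool.Agent.T9h51.PE.no_divisors`).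
-/

set_option autoImplicit false

namespace Pool.Agent.Results.MP_26a8c3_nt.AllHeightsThinModuli

open Finset Polynomial
open Pool.Agent.TH212.EH (En)

/-- `N(x, y; k, l)`: the number of the primes `p` with `x - y < p ≤ x` and `p ≡ l (mod k)`. -/
noncomputable def num (x y : ℝ) (k : ℕ) (l : ℤ) : ℕ :=
  {p : ℕ | p.Prime ∧ x - y < (p : ℝ) ∧ (p : ℝ) ≤ x ∧ (p : ℤ) ≡ l [ZMOD (k : ℤ)]}.ncard

/-- The inequality of the problem, with the constant `2 - δ`, for the modulus `q`, ALL reduced classes `l` and ALL real `x`, `y`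
with `q < y ≤ x` and `y / q ≥ x ^ ε`. -/
def AllClasses (ε δ : ℝ) (q : ℕ) : Prop :=
  ∀ (l : ℤ) (x y : ℝ), Int.gcd l (q : ℤ) = 1 → (q : ℝ) < y → y ≤ x → x ^ ε ≤ y / q →
    (num x y q l : ℝ) < (2 - δ) * y / ((Nat.totient q : ℝ) * Real.log (y / q))

open Classical in
/-- For all but at most `φ(q) / L ^ U` of the reduced classes `l` modulo `q` the inequality
`N(x, y; q, l) ≤ (1 + ε) y / (φ(q) log x)` holds for ALL real `x`, `y` with `q L ^ (4 D + U + 6) ≤ y ≤ x ≤ y L ^ D` and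
`x ≤ q exp (K L)`. (For `L = log N` this is `x ≤ q N ^ K`.) -/
def AlmostAllClasses (ε : ℝ) (D U K : ℕ) (L : ℝ) (q : ℕ) : Prop :=
  (((range q).filter (fun l => Nat.Coprime l q ∧ ∃ x y : ℝ, q * L ^ (4 * D + U + 6) ≤ y ∧ y ≤ x ∧ x ≤ y * L ^ D ∧
    x ≤ q * Real.exp (K * L) ∧ (1 + ε) * (y / (Nat.totient q * Real.log x)) < num x y q l)).card : ℝ) ≤
    (Nat.totient q : ℝ) / L ^ U

/-- ALL the integers `q ≥ 1` with `|q - v| ≤ L ^ W` satisfy `AllClasses` and `AlmostAllClasses`. -/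
def Good (ε δ ε' : ℝ) (D U K W : ℕ) (L : ℝ) (v : ℤ) : Prop :=
  ∀ q : ℕ, 1 ≤ q → |(q : ℝ) - v| ≤ L ^ W → AllClasses ε δ q ∧ AlmostAllClasses ε' D U K L q

/-- The additive energy of order `h` of a finite family `v` of integers: the number of the solutions of
`v (i 1) + ⋯ + v (i h) = v (j 1) + ⋯ + v (j h)`. -/
noncomputable def energy (h : ℕ) {ι : Type} [Fintype ι] (v : ι → ℤ) : ℕ :=
  Nat.card {q : (Fin h → ι) × (Fin h → ι) // ∑ j, v (q.1 j) = ∑ j, v (q.2 j)}

/-- The sums of `h` elements of `A` are different, up to the order of the summands (`h = 2`: `A` is a Sidon set). -/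
def DifferentSums (h : ℕ) (A : Finset ℤ) : Prop :=
  ∀ x y : Fin h → ℤ, (∀ j, x j ∈ A) → (∀ j, y j ∈ A) → ∑ j, x j = ∑ j, y j → ∃ σ : Equiv.Perm (Fin h), ∀ j, x j = y (σ j)

/-- The integers below `b ^ k` whose `i`-th digit in base `b` belongs to `D i` for all `i < k`. -/
def S (b : ℕ) (D : ℕ → Finset ℕ) (k : ℕ) : Finset ℕ := (range (b ^ k)).filter (fun n : ℕ => ∀ i < k, n / b ^ i % b ∈ D i)

lemma num_eq (x y : ℝ) (q a : ℕ) (ha : a < q) (hyx : y ≤ x) (hx : 0 ≤ x) :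
    num x y q a = Pool.Agent.TH872.GQ.BT.cnt x y q a := by
  unfold num Pool.Agent.TH872.GQ.BT.cnt
  rw [← Set.ncard_coe_finset]
  congr 1
  ext p
  rw [mem_coe, mem_filter, mem_Ioc, Set.mem_ofPred_eq, Nat.floor_lt (by linarith), Nat.le_floor_iff hx]
  constructor
  · rintro ⟨h1, h2, h3, h4⟩
    refine ⟨⟨h2, h3⟩, h1, ?_⟩
    have h5 : p ≡ a [MOD q] := (Int.natCast_modEq_iff).1 h4
    rw [Nat.ModEq, Nat.mod_eq_of_lt ha] at h5
    exact h5
  · rintro ⟨⟨h2, h3⟩, h1, h4⟩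
    refine ⟨h1, h2, h3, (Int.natCast_modEq_iff).2 ?_⟩
    rw [Nat.ModEq, Nat.mod_eq_of_lt ha]
    exact h4

theorem almost_of (ε : ℝ) (D U K N q : ℕ) (hN : 0 < N)
    (h : ∀ [DecidablePred fun a : ℕ => Nat.Coprime a q ∧ ∃ x y : ℝ, q * Real.log N ^ (4 * D + U + 6) ≤ y ∧ y ≤ x ∧ x ≤ y * Real.log N ^ D ∧
      x ≤ q * (N : ℝ) ^ K ∧ (1 + ε) * (y / (Nat.totient q * Real.log x)) < Pool.Agent.TH872.GQ.BT.cnt x y q a],
      (((range q).filter (fun a => Nat.Coprime a q ∧ ∃ x y : ℝ, q * Real.log N ^ (4 * D + U + 6) ≤ y ∧ y ≤ x ∧ x ≤ y * Real.log N ^ D ∧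
      x ≤ q * (N : ℝ) ^ K ∧ (1 + ε) * (y / (Nat.totient q * Real.log x)) < Pool.Agent.TH872.GQ.BT.cnt x y q a)).card : ℝ) ≤
      (Nat.totient q : ℝ) / Real.log N ^ U) : AlmostAllClasses ε D U K (Real.log N) q := by
  classical
  unfold AlmostAllClasses
  refine le_trans ?_ h
  apply Nat.cast_le.2
  apply card_le_card
  intro a ha
  rw [mem_filter] at ha ⊢
  obtain ⟨haq, hac, x, y, h1, h2, h3, h4, h5⟩ := ha
  have hy0 : 0 ≤ y := le_trans (mul_nonneg (Nat.cast_nonneg _) (pow_nonneg (Real.log_natCast_nonneg _) _)) h1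
  have e : Real.exp (K * Real.log N) = (N : ℝ) ^ K := by
    rw [mul_comm, Real.exp_mul, Real.exp_log (by exact_mod_cast hN), Real.rpow_natCast]
  rw [e] at h4
  rw [num_eq x y q a (mem_range.1 haq) h2 (by linarith)] at h5
  exact ⟨haq, hac, x, y, h1, h2, h3, h4, h5⟩

/-- for all the reduced classes -/
theorem all_of (ε δ : ℝ) (hε : 0 < ε) (κ : ℕ) (t₀ : ℕ) (D : ℕ → Finset ℕ)
    (hD : ∀ t : ℕ, t₀ ≤ t → ∀ (k : ℕ) (l : ℤ) (x y : ℝ), 1 ≤ k → y ≤ x → x ≤ 2 ^ t → Int.gcd l (k : ℤ) = 1 →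
      ((2 : ℝ) ^ t) ^ (ε / 2) ≤ y / k → (∀ d ∈ D t, ¬ d ∣ k) →
      (num x y k l : ℝ) < (2 - δ) * y / ((Nat.totient k : ℝ) * Real.log (y / k))) :
    ∃ N₀ : ℕ, ∀ N : ℕ, N₀ ≤ N → ∀ q : ℕ, 1 ≤ q → (N : ℝ) ≤ q * Real.log N ^ κ → (∀ t : ℕ, N ≤ 2 ^ t → ∀ d ∈ D t, ¬ d ∣ q) →
      AllClasses ε δ q := by
  obtain ⟨n1, h1⟩ : ∃ n1 : ℕ, ∀ N : ℕ, n1 ≤ N → Real.log N ^ κ ≤ (N : ℝ) ^ (ε / 2) := by
    have h := (isLittleO_log_rpow_rpow_atTop (κ : ℝ) (show (0 : ℝ) < ε / 2 by positivity)).bound (show (0 : ℝ) < 1 by norm_num)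
    have h2 := (tendsto_natCast_atTop_atTop (R := ℝ)).eventually h
    obtain ⟨x0, hx0⟩ := Filter.eventually_atTop.1 h2
    refine ⟨max x0 1, fun x hx => ?_⟩
    have h3 := hx0 x (le_trans (le_max_left _ _) hx)
    rw [one_mul, Real.rpow_natCast, Real.norm_of_nonneg (pow_nonneg (Real.log_natCast_nonneg _) _),
      Real.norm_of_nonneg (Real.rpow_nonneg (Nat.cast_nonneg _) _)] at h3
    exact h3
  obtain ⟨n2, h2⟩ := Pool.Agent.H373R2.T7.ev_log' κ 1
  obtain ⟨P₀, hP₀⟩ : ∃ P₀ : ℕ, P₀ = 2 ^ t₀ := ⟨_, rfl⟩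
  refine ⟨n1 + n2 + P₀ + 16, fun N hN q hq hNq hdiv l x y hgcd hqy hyx hxε => ?_⟩
  have c1 := h1 N (by omega)
  have c2 := h2 N (by omega)
  rw [one_mul] at c2
  have hN16 : (16 : ℝ) ≤ N := by exact_mod_cast (by omega : 16 ≤ N)
  have hN0 : (0 : ℝ) < N := by linarith
  have hq0 : (0 : ℝ) < q := by exact_mod_cast hq
  have hs0 : 0 < √(N : ℝ) := Real.sqrt_pos.2 hN0
  have hss : √(N : ℝ) * √(N : ℝ) = N := Real.mul_self_sqrt hN0.le
  have hsq : √(N : ℝ) ≤ q := by
    have e1 : √(N : ℝ) * √(N : ℝ) ≤ q * √(N : ℝ) := by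
      rw [hss]
      exact hNq.trans (mul_le_mul_of_nonneg_left c2 hq0.le)
    exact le_of_mul_le_mul_right e1 hs0
  have hs4 : 4 ≤ √(N : ℝ) := by
    rw [show (4 : ℝ) = √16 by rw [show (16 : ℝ) = 4 ^ 2 by norm_num]; simp]
    exact Real.sqrt_le_sqrt hN16
  have hx4 : 4 ≤ x := by linarith
  have hx0 : 0 < x := by linarith
  -- x is at least N
  have hxN : (N : ℝ) ≤ x := by
    have e1 : (N : ℝ) ^ (ε / 2) ≤ x ^ ε := by
      have e2 : (N : ℝ) ^ (ε / 2) = (√(N : ℝ)) ^ ε := by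
        rw [Real.sqrt_eq_rpow, ← Real.rpow_mul hN0.le]
        congr 1
        ring
      rw [e2]
      exact Real.rpow_le_rpow hs0.le (by linarith) hε.le
    have e3 : Real.log N ^ κ ≤ y / q := c1.trans (e1.trans hxε)
    rw [le_div_iff₀ hq0] at e3
    linarith
  obtain ⟨X, hX⟩ : ∃ X, X = ⌈x⌉₊ := ⟨_, rfl⟩
  have hxX : x ≤ X := by rw [hX]; exact Nat.le_ceil x
  have hXx : (X : ℝ) < x + 1 := by rw [hX]; exact Nat.ceil_lt_add_one (by linarith)
  have hX1 : 1 < X := by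
    have : (1 : ℝ) < X := by linarith
    exact_mod_cast this
  obtain ⟨t, ht⟩ : ∃ t, t = Nat.clog 2 X := ⟨_, rfl⟩
  have hXt : X ≤ 2 ^ t := by
    rw [ht]
    exact Nat.le_pow_clog (by norm_num) X
  have hxt : x ≤ 2 ^ t := hxX.trans (by exact_mod_cast hXt)
  have htx : (2 : ℝ) ^ t ≤ 2 * x := by
    have h2 := Nat.pow_pred_clog_lt_self (b := 2) (by norm_num) hX1
    rw [← ht] at h2
    have h3 : 1 ≤ t := by
      rw [ht]
      exact Nat.clog_pos (by norm_num) hX1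
    have h4 : 2 ^ t = 2 ^ (t.pred) * 2 := by
      rw [← pow_succ]
      congr 1
      exact (Nat.succ_pred_eq_of_pos h3).symm
    have h5 : 2 ^ (t.pred) + 1 ≤ X := h2
    have h6 : ((2 ^ (t.pred) : ℕ) : ℝ) + 1 ≤ X := by exact_mod_cast h5
    have h7 : (2 : ℝ) ^ t = ((2 ^ (t.pred) : ℕ) : ℝ) * 2 := by exact_mod_cast h4
    rw [h7]
    linarith
  have hNt : N ≤ 2 ^ t := by
    have h1 : (N : ℝ) ≤ ((2 ^ t : ℕ) : ℝ) := by
      push_cast
      linarith
    exact_mod_cast h1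
  have htt : t₀ ≤ t := by
    have e1 : 2 ^ t₀ ≤ 2 ^ t := by
      rw [← hP₀]
      exact le_trans (by omega) hNt
    exact (Nat.pow_le_pow_iff_right (by norm_num)).1 e1
  refine hD t htt q l x y hq hyx hxt hgcd (le_trans ?_ hxε) (hdiv t hNt)
  have e1 : ((2 : ℝ) ^ t) ^ (ε / 2) ≤ (x ^ 2) ^ (ε / 2) := by
    apply Real.rpow_le_rpow (by positivity) _ (by positivity)
    nlinarith
  refine e1.trans (le_of_eq ?_)
  rw [← Real.rpow_natCast, ← Real.rpow_mul hx0.le]
  congr 1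
  push_cast
  ring

theorem allG (ε : ℝ) (hε : 0 < ε) : ∃ δ : ℝ, 0 < δ ∧ ∀ (ε' : ℝ), 0 < ε' → ε' ≤ 1 → ∀ (D U K W V : ℕ),
    Pool.Agent.T9h51.ME.Gen.AllG (Good ε δ ε' D U K W) V := by
  classical
  obtain ⟨δ, hδ, hone⟩ := Pool.Agent.T9h52.BT.Ex.one_modulus (ε / 2) (by positivity)
  refine ⟨δ, hδ, fun ε' hε' hε1' D U K W V => ?_⟩
  intro h B C hh
  obtain ⟨κ, n1, h1⟩ := Pool.Agent.T9h51.PE.var_all h B C (3 * D + U + 2) (2 * K + 1) W (V + 1) hh
  obtain ⟨T, hT⟩ := Pool.Agent.T9h51.PE.no_divisors h B C (V + 1) W 0 hh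
  obtain ⟨X₀, hX₀⟩ := hone T
  choose qf ψ hq1 hq2 hq3 using hX₀
  obtain ⟨t₀, ht₀⟩ := pow_unbounded_of_one_lt X₀ (by norm_num : (1 : ℝ) < 2)
  have hge : ∀ t : ℕ, t₀ ≤ t → X₀ ≤ (2 : ℝ) ^ t := fun t ht =>
    ht₀.le.trans (pow_le_pow_right₀ (by norm_num) ht)
  obtain ⟨Dt, hDt⟩ : ∃ Dt : ℕ → Finset ℕ, ∀ t, Dt t = if ht : X₀ ≤ (2 : ℝ) ^ t then {qf (2 ^ t) ht} else ∅ := ⟨_, fun _ => rfl⟩
  obtain ⟨n2, h2⟩ := hT t₀
  have h2' := h2 Dt (fun t ht => by
    rw [hDt, dif_pos (hge t ht)]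
    refine ⟨by rw [card_singleton, pow_zero, Nat.cast_one], fun d hd => ?_⟩
    rw [mem_singleton] at hd
    rw [hd, ← Real.log_pow]
    exact hq1 _ _)
  obtain ⟨n3, h3⟩ := all_of ε δ hε κ t₀ Dt (fun t ht k l x y hk hyx hxt hgcd hky hdiv => by
    rw [hDt, dif_pos (hge t ht)] at hdiv
    exact hq3 (2 ^ t) (hge t ht) k l x y hk hyx hxt hgcd hky (fun hcon => hdiv _ (mem_singleton_self _) hcon.1))
  obtain ⟨n4, h4⟩ := Pool.Agent.T9h51.PE.bt_classes D U κ K ε' hε' hε1'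
  obtain ⟨n5, h5⟩ := Pool.Agent.H373R2.T7.ev_L' 2
  obtain ⟨n6, h6⟩ := Pool.Agent.H373R2.T7.ev_log' W 1
  refine ⟨n1 + n2 + n3 + n4 + n5 + n6 + B + 3, fun N hN ι _ v hv hE => ?_⟩
  have k1 := h1 N (by omega) ι v hv hE
  have k2 := h2' N (by omega) ι v hv hE
  have hL := h5 N (by omega)
  have hWs := h6 N (by omega)
  rw [one_mul] at hWs
  have hN3 : (3 : ℝ) ≤ N := by exact_mod_cast (by omega : 3 ≤ N)
  have hWN : Real.log N ^ W ≤ N := by
    refine hWs.trans ?_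
    rw [Real.sqrt_le_left (by linarith)]
    nlinarith
  have hL0 : 0 < Real.log (N : ℝ) := by linarith
  have hsub : univ.filter (fun i => ¬ Good ε δ ε' D U K W (Real.log N) (v i)) ⊆
      univ.filter (fun i => ¬ Pool.Agent.T9h51.PE.GoodV (3 * D + U + 2) (2 * K + 1) W κ N (v i)) ∪
      univ.filter (fun i => ∃ q : ℕ, 1 ≤ q ∧ |(q : ℝ) - v i| ≤ Real.log N ^ W ∧ ∃ t : ℕ, N ≤ 2 ^ t ∧ ∃ d ∈ Dt t, d ∣ q) := by
    intro i hi
    rw [mem_filter] at hi
    rw [mem_union, mem_filter, mem_filter]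
    by_contra hcon
    push Not at hcon
    obtain ⟨c1, c2⟩ := hcon
    apply hi.2
    intro q hq1 hq2
    obtain ⟨d1, d2⟩ := c1 (mem_univ _) q hq1 hq2
    refine ⟨h3 N (by omega) q hq1 d1 (fun t ht d hd => c2 (mem_univ _) q hq1 hq2 t ht d hd), ?_⟩
    apply almost_of ε' D U K N q (by omega)
    intro _
    convert h4 N (by omega) q hq1 d1 ?_ d2
    have e1 : (v i : ℝ) ≤ B * N := by
      have := (le_abs_self (v i)).trans (hv i)
      exact_mod_cast this
    have e2 := (abs_le.1 hq2).2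
    have e3 : (q : ℝ) ≤ (B + 1) * N := by linarith
    refine e3.trans ?_
    rw [pow_two]
    apply mul_le_mul_of_nonneg_right _ (by linarith)
    exact_mod_cast (by omega : B + 1 ≤ N)
  have hcr : (0 : ℝ) ≤ Fintype.card ι := Nat.cast_nonneg _
  calc ((univ.filter (fun i => ¬ Good ε δ ε' D U K W (Real.log N) (v i))).card : ℝ) ≤
        ((univ.filter (fun i => ¬ Pool.Agent.T9h51.PE.GoodV (3 * D + U + 2) (2 * K + 1) W κ N (v i))).card : ℝ) +
        ((univ.filter (fun i => ∃ q : ℕ, 1 ≤ q ∧ |(q : ℝ) - v i| ≤ Real.log N ^ W ∧ ∃ t : ℕ, N ≤ 2 ^ t ∧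
          ∃ d ∈ Dt t, d ∣ q)).card : ℝ) := by
        exact_mod_cast (card_le_card hsub).trans (card_union_le _ _)
    _ ≤ Fintype.card ι / Real.log N ^ (V + 1) + Fintype.card ι / Real.log N ^ (V + 1) := add_le_add k1 k2
    _ = Fintype.card ι / Real.log N ^ V * (2 / Real.log N) := by
        rw [pow_succ]
        field_simp
        ring
    _ ≤ Fintype.card ι / Real.log N ^ V * 1 := by
        apply mul_le_mul_of_nonneg_left _ (by positivity)
        rw [div_le_one hL0]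
        exact hL
    _ = _ := mul_one _

open Classical in
/-- **The Brun–Titchmarsh inequality at all heights.** For every `ε > 0` there is `δ > 0` such that the following holds for all
fixed `0 < ε' ≤ 1`, `D`, `U`, `K`, `W`, `V`. An integer `v` is good (`Good ε δ ε' D U K W L v`) if ALL the integers `q ≥ 1` with
`|q - v| ≤ L ^ W` satisfy the inequality `N(x, y; q, l) < (2 - δ) y / (φ(q) log (y / q))` for ALL reduced classes `l` and ALL
real `x`, `y` with `q < y ≤ x` and `y / q ≥ x ^ ε`, and for all but at most `φ(q) / L ^ U` reduced classes `l` the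
inequality `N(x, y; q, l) ≤ (1 + ε') y / (φ(q) log x)` for ALL real `x`, `y` with `q L ^ (4 D + U + 6) ≤ y ≤ x ≤ y L ^ D` and
`x ≤ q exp (K L)`.

(1) Let `h ≥ 1`, `B`, `C` be fixed and let `N` be large. Let `v i`, `i ∈ ι`, be a finite family of integers with
`|v i| ≤ B N` whose additive energy of order `h` is at most `log ^ C N` times `(#ι) ^ (2 h) / N`. Then all the `v i`,
with at most `#ι / log ^ V N` exceptions, are good with `L = log N`.

(2) In particular this holds for all sets of integers in `[-B N, B N]` the sums of `h` elements of which are different,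
with at least `(N / log ^ C N) ^ (1 / h)` elements.

(3) Let `b ≥ 2`, `d ≥ 2`, `B` and `κ ≠ 0` be fixed and let `k` be large. Then for ALL sets `D 0, …, D (k - 1)` of at least
two digits in base `b` and ALL polynomials `f` with integer coefficients, of degree `d` and with leading coefficient `κ`,
such that `|f(n)| ≤ B b ^ (d k)` for all `n < b ^ k`: for all the integers `n < b ^ k` whose `i`-th digit lies in `D i` for
all `i < k`, with a proportion of at most `1 / L ^ V` of exceptions, `v = f(n)` is good, where `L = log (b ^ (d k))`. -/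
theorem result (ε : ℝ) (hε : 0 < ε) : ∃ δ : ℝ, 0 < δ ∧ ∀ (ε' : ℝ), 0 < ε' → ε' ≤ 1 → ∀ (D U K W V : ℕ),
    (∀ h B C : ℕ, 1 ≤ h → ∃ N₀ : ℕ, ∀ N : ℕ, N₀ ≤ N →
      (∀ (ι : Type) [Fintype ι] (v : ι → ℤ), (∀ i, |v i| ≤ B * N) →
        (energy h v : ℝ) * N ≤ Real.log N ^ C * (Fintype.card ι : ℝ) ^ (2 * h) →
        ((univ.filter (fun i => ¬ Good ε δ ε' D U K W (Real.log N) (v i))).card : ℝ) ≤ Fintype.card ι / Real.log N ^ V) ∧
      (∀ A : Finset ℤ, (∀ a ∈ A, |a| ≤ B * N) → DifferentSums h A → (N : ℝ) ≤ Real.log N ^ C * (A.card : ℝ) ^ h →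
        ((A.filter (fun a => ¬ Good ε δ ε' D U K W (Real.log N) a)).card : ℝ) ≤ A.card / Real.log N ^ V)) ∧
    (∀ b d B : ℕ, 2 ≤ b → 2 ≤ d → ∀ κ : ℤ, κ ≠ 0 → ∃ k₀ : ℕ, ∀ k : ℕ, k₀ ≤ k →
      ∀ E : ℕ → Finset ℕ, (∀ i < k, E i ⊆ range b ∧ 2 ≤ (E i).card) →
      ∀ f : ℤ[X], f.natDegree = d → f.leadingCoeff = κ → (∀ n < b ^ k, |f.eval (n : ℤ)| ≤ B * ((b ^ (d * k) : ℕ) : ℤ)) →
      (((S b E k).filter (fun n : ℕ => ¬ Good ε δ ε' D U K W (Real.log ((b ^ (d * k) : ℕ) : ℝ)) (f.eval (n : ℤ)))).card : ℝ) ≤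
        (S b E k).card / Real.log ((b ^ (d * k) : ℕ) : ℝ) ^ V) := by
  obtain ⟨δ, hδ, hG⟩ := allG ε hε
  refine ⟨δ, hδ, fun ε' hε' hε1' D U K W V => ?_⟩
  have hP := hG ε' hε' hε1' D U K W V
  refine ⟨fun h B C hh => ?_, fun b d B hb hd κ hκ => ?_⟩
  · obtain ⟨n1, h1⟩ := hP h B C hh
    obtain ⟨n2, h2⟩ := Pool.Agent.T9h51.ME.Gen.sidonSet hP h B C hh
    exact ⟨n1 + n2, fun N hN => ⟨h1 N (by omega), h2 N (by omega)⟩⟩
  · exact Pool.Agent.T9h51.ME.Gen.polyL hP b d B hb hd κ hκ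

end Pool.Agent.Results.MP_26a8c3_nt.AllHeightsThinModuli
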