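import Mathlib
import Pool.Agent.T9h52.BT.Zr7

/-!
# A progression close to the Brun–Titchmarsh bound forces a Siegel zero

If a progression with `y / k ≥ x ^ ε` contains almost `2 y / (φ(k) log (y / k))` primes, then some real
character modulo `k` has a real zero at distance at most `ν / log x` from one.
-/

set_option autoImplicit false

namespace Pool.Agent.Results.MP_26a8c3_nt.NearExtremalSiegelZero

/-- For all `ε, ν > 0` there are `δ > 0` and `x₀` such that the following holds for every modulus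
`k ≥ 1`, every `l` prime to `k`, and all reals `y ≤ x`, `x ≥ x₀`, with `y / k ≥ x ^ ε`. If at least
`(2 - δ) y / (φ(k) log (y / k))` primes in `(x - y, x]` are congruent to `l` modulo `k`, then
`k ≤ x ^ ν`, and there is a real nonprincipal Dirichlet character `χ` modulo `k` with `χ(l) = -1` whose
`L`-function has a real zero `β` with `1 - ν / log x ≤ β < 1`. -/
theorem result :
    ∀ ε ν : ℝ, 0 < ε → 0 < ν → ∃ δ : ℝ, 0 < δ ∧ ∃ x₀ : ℝ,
      ∀ (k : ℕ) [NeZero k] (l : ℤ) (x y : ℝ), Int.gcd l (k : ℤ) = 1 → y ≤ x → x₀ ≤ x →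
        x ^ ε ≤ y / (k : ℝ) →
        (2 - δ) * y / ((Nat.totient k : ℝ) * Real.log (y / (k : ℝ))) ≤
          (({p : ℕ | p.Prime ∧ x - y < (p : ℝ) ∧ (p : ℝ) ≤ x ∧
              (p : ℤ) ≡ l [ZMOD (k : ℤ)]}.ncard : ℕ) : ℝ) →
        (k : ℝ) ≤ x ^ ν ∧
        ∃ χ : DirichletCharacter ℂ k, χ ^ 2 = 1 ∧ χ ≠ 1 ∧ χ (l : ZMod k) = -1 ∧
          ∃ β : ℝ, 1 - ν / Real.log x ≤ β ∧ β < 1 ∧ χ.LFunction (β : ℂ) = 0 := by
  intro ε ν hε hν
  obtain ⟨δ, hδ, x₀, _, h⟩ := Pool.Agent.T9h52.BT.Zr.inverse_zero ε ν hε hν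
  exact ⟨δ, hδ, x₀, fun k _ l x y hgcd hyx hx hxy hnear => h k l x y hyx hgcd hx hxy hnear⟩

end Pool.Agent.Results.MP_26a8c3_nt.NearExtremalSiegelZero
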