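import Mathlib
import Pool.Agent.T9h52.BT.Ex4

/-!
# The Brun–Titchmarsh inequality with a constant smaller than two, outside one half of the classes of
the multiples of one modulus

All intervals and progressions with `y / k ≥ X ^ ε`, apart from the classes `l` modulo multiples `k` of a
single integer `q = q(X)` at which a single primitive real character modulo `q` equals `-1`, and `q(X)`
exceeds every fixed power of `log X`.
-/

set_option autoImplicit false

namespace Pool.Agent.Results.MP_26a8c3_nt.OneExceptionalModulus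

/-- For every `ε > 0` there is `δ > 0` such that, for every natural number `B` and all sufficiently
large `X`, there are an integer `q > (log X) ^ B` and a primitive Dirichlet character `ψ` modulo `q` with
integral values (a real character) with the following property. For all `k ≥ 1`, all `l` prime to `k`,
and all reals `y ≤ x ≤ X` with `y / k ≥ X ^ ε`, unless `q` divides `k` and `ψ(l) = -1`, the number
of primes in `(x - y, x]` congruent to `l` modulo `k` is smaller than
`(2 - δ) y / (φ(k) log (y / k))`. -/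
theorem result :
    ∀ ε : ℝ, 0 < ε → ∃ δ : ℝ, 0 < δ ∧ ∀ B : ℕ, ∃ X₀ : ℝ, ∀ X : ℝ, X₀ ≤ X →
      ∃ (q : ℕ) (ψ : DirichletCharacter ℤ q), (Real.log X) ^ B < (q : ℝ) ∧ ψ.IsPrimitive ∧
        ∀ (k : ℕ) (l : ℤ) (x y : ℝ), 1 ≤ k → ¬ (q ∣ k ∧ ψ (l : ZMod q) = -1) →
          Int.gcd l (k : ℤ) = 1 → y ≤ x → x ≤ X → X ^ ε ≤ y / (k : ℝ) →
            (({p : ℕ | p.Prime ∧ x - y < (p : ℝ) ∧ (p : ℝ) ≤ x ∧
                (p : ℤ) ≡ l [ZMOD (k : ℤ)]}.ncard : ℕ) : ℝ) <
              (2 - δ) * y / ((Nat.totient k : ℝ) * Real.log (y / (k : ℝ))) := by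
  intro ε hε
  obtain ⟨δ, hδ, h⟩ := Pool.Agent.T9h52.BT.Ex.one_modulus ε hε
  refine ⟨δ, hδ, fun B => ?_⟩
  obtain ⟨X₀, hX₀⟩ := h B
  refine ⟨X₀, fun X hX => ?_⟩
  obtain ⟨q, ψ, hq, hψ, hmain⟩ := hX₀ X hX
  exact ⟨q, ψ, hq, hψ, fun k l x y hk hdiv hgcd hyx hxX hXy =>
    hmain k l x y hk hyx hxX hgcd hXy hdiv⟩

end Pool.Agent.Results.MP_26a8c3_nt.OneExceptionalModulus
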