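import Pool.Agent.T9h59.BT.App

/-!
# The inequality of Brun and Titchmarsh with a constant below 2 near the orders of the subgroups of `F_p^*`

Let `1 / 2 ≤ t < 1`, `0 < η ≤ κ < t`, `c ≥ 0` and `δ₀ < 2 - 2 κ / t`. Let `G` be a real sequence with steps bounded below by a
positive constant and growth at most `v ^ d`, for example `G v = v`, and `d (2 t - η + 2 c) + ϑ < 1`. For all primes `p ≤ X` but
`O(X^(1 - ρ))`, `ρ` any number below `(1 - γ) (1 - (d (2 t - η + 2 c) + ϑ)) / 2`: for ALL subgroups of `F_p^*` which contain an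
integer `b`, `2 ≤ b ≤ X^γ`, for example those generated by such an integer, with the order `w`, the inequality
`N(x, y; k, l) < (2 - δ₀) y / (φ(k) log (y / k))` holds for ALL `k`, ALL `l` prime to `k` and ALL real `x`, `y` such that
the position `z = (x - y) / k` satisfies `|z - G w| ≤ w ^ ϑ`, `k ≤ z ^ c` and `z ^ η ≤ y / k ≤ z ^ κ`.

With `t = 1 / 2` and `d = 1` this is the range `z ^ η ≤ y / k ≤ z ^ κ`, `κ < 1 / 2`, `η > 2 c + ϑ`, with any constant above `4 κ`.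

The number of the `w` which occur is not restricted, one prime has many subgroups of this kind, and one `w` can occur for
many primes; the proof counts the primes with `p ∣ b ^ w - 1` for small `w`, and the cofactors `(p - 1) / w` for large `w`
(`T9h59/OR`). The number of the exceptional positions is from the starting files (`AlmostAllPositions`,
`PositionsInWindows`, on the library `Y882.BT`).
-/

set_option autoImplicit false

namespace Pool.Agent.Results.MP_26a8c3_nt.SubgroupOrders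

open Pool.Agent.N733.TG (Expanding expanding_pow)
open Pool.Agent.T9h59.OR (SubOrder subOrder_orderOf)

/-- The number `N(x, y; k, l)` of the primes `p ≡ l` modulo `k` in the interval `(x - y, x]`. -/
noncomputable def N (x y : ℝ) (k : ℕ) (l : ℤ) : ℕ :=
  {p : ℕ | p.Prime ∧ (p : ℤ) ≡ l [ZMOD k] ∧ x - y < p ∧ (p : ℝ) ≤ x}.ncard

/-- **The inequality of Brun and Titchmarsh near the orders of the subgroups of `F_p^*`.** Let `G` have steps `≥ a > 0` and
growth at most `v ^ d`, and let `1 / 2 ≤ t < 1`, `0 < η ≤ κ < t`, `c ≥ 0`, `δ₀ < 2 - 2 κ / t`, `ϑ ≥ 0`,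
`d (2 t - η + 2 c) + ϑ < 1`, `0 ≤ γ < 1` and `ρ < (1 - γ) (1 - (d (2 t - η + 2 c) + ϑ)) / 2`. For all primes `p ≤ X` but
`C X^(1 - ρ)`: for the order `w` of EVERY subgroup of `F_p^*` which contains an integer `b`, `2 ≤ b ≤ X^γ`
(`SubOrder (X ^ γ) p w`), ALL moduli `k`, ALL classes `l` prime to `k` and ALL real `x`, `y` such that `z = (x - y) / k`
satisfies `|z - G w| ≤ w ^ ϑ`, `k ≤ z ^ c`, `z ^ η ≤ y / k ≤ z ^ κ`, one has
`N(x, y; k, l) < (2 - δ₀) y / (φ(k) log (y / k))`.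

The order of `b` modulo `p` is such a number `w`, and `α v ^ d` with `α > 0`, `d ≥ 1` is an example of `G`. -/
theorem result :
    (∀ (G : ℕ → ℝ) (d ϑ γ t η κ c δ₀ ρ : ℝ), Expanding G d → 1 / 2 ≤ t → t < 1 → 0 < η → η ≤ κ → κ < t → 0 ≤ c →
      δ₀ < 2 - 2 * κ / t → 0 ≤ ϑ → d * (2 * t - η + 2 * c) + ϑ < 1 → 0 ≤ γ → γ < 1 →
      ρ < (1 - γ) * (1 - (d * (2 * t - η + 2 * c) + ϑ)) / 2 → ∃ C : ℝ, ∀ X : ℕ, 1 ≤ X →
        ({p : ℕ | p.Prime ∧ p ≤ X ∧ ¬ ∀ w, SubOrder ((X : ℝ) ^ γ) p w → ∀ (k : ℕ) (l : ℤ) (x y : ℝ), 1 ≤ k →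
          Int.gcd l k = 1 → |(x - y) / k - G w| ≤ (w : ℝ) ^ ϑ → (k : ℝ) ≤ ((x - y) / k) ^ c →
          ((x - y) / k) ^ η ≤ y / k → y / k ≤ ((x - y) / k) ^ κ →
            (N x y k l : ℝ) < (2 - δ₀) * y / (Nat.totient k * Real.log (y / k))}.ncard : ℝ) ≤ C * (X : ℝ) ^ (1 - ρ)) ∧
    (∀ (B : ℝ) (p b : ℕ), p.Prime → 2 ≤ b → (b : ℝ) ≤ B → ¬ p ∣ b → SubOrder B p (orderOf (b : ZMod p))) ∧
    ∀ α d : ℝ, 0 < α → 1 ≤ d → Expanding (fun v => α * (v : ℝ) ^ d) d := by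
  refine ⟨fun G d ϑ γ t η κ c δ₀ ρ hG ht1 ht hη hηκ hκ hc hδ₀ hϑ h1 hγ0 hγ1 hρ => ?_,
    fun B p b hp hb hbB hpb => subOrder_orderOf hp hb hbB hpb, fun α d hα hd => expanding_pow hα hd⟩
  exact Pool.Agent.T9h59.BT.sub_orders hG ht1 ht hη hηκ hκ hc hδ₀ hϑ h1 hγ0 hγ1 hρ

end Pool.Agent.Results.MP_26a8c3_nt.SubgroupOrders
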